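import Pool.Agent.R466.CEMain

/-!
`B (5 * 7 * 13 ^ 2) = 12822` is not divisible by `5`, where `B n` is the maximal height of a
divisor of `X ^ n - 1` in `ℤ[X]`.
-/

namespace Pool.Agent.Results.MP_68ef1b_nt.NotDvdB

open Polynomial Finset Pool.Agent.R466 Pool.Agent.R466.CE

theorem ite_eq (d : ℕ) (t : Finset ℕ) (l : List ℤ) (h : cyclotomic d ℤ = toPoly l) :
    (if d ∈ t then cyclotomic d ℤ else 1) = toPoly (sel (decide (d ∈ t)) l) := by
  by_cases hd : d ∈ t
  · simp [hd, sel, h]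
  · simp [hd, sel, toPoly]

theorem ite_eq_expand (d e : ℕ) (t : Finset ℕ) (l : List ℤ) (h : cyclotomic e ℤ = toPoly l)
    (hde : cyclotomic d ℤ = expand ℤ 13 (cyclotomic e ℤ)) :
    (if d ∈ t then cyclotomic d ℤ else 1) = expand ℤ 13 (toPoly (sel (decide (d ∈ t)) l)) := by
  by_cases hd : d ∈ t
  · simp [hd, sel, h, hde]
  · simp [hd, sel, toPoly]

theorem divs : (5 * 7 * 13 ^ 2).divisors =
    {1, 5, 7, 13, 35, 65, 91, 455, 169, 845, 1183, 5915} := by decide +kernel

theorem prod_eq {t : Finset ℕ} (ht : t ⊆ (5 * 7 * 13 ^ 2).divisors) :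
    (∏ d ∈ t, cyclotomic d ℤ) =
      EP (decide (1 ∈ t)) (decide (5 ∈ t)) (decide (7 ∈ t)) (decide (13 ∈ t)) (decide (35 ∈ t))
        (decide (65 ∈ t)) (decide (91 ∈ t)) (decide (455 ∈ t)) *
      expand ℤ 13 (GP (decide (169 ∈ t)) (decide (845 ∈ t)) (decide (1183 ∈ t))
        (decide (5915 ∈ t))) := by
  have h13 : (13 : ℕ).Prime := by norm_num
  have h1 : (∏ d ∈ t, cyclotomic d ℤ) =
      ∏ d ∈ (5 * 7 * 13 ^ 2).divisors, if d ∈ t then cyclotomic d ℤ else 1 := by
    rw [Finset.prod_ite_mem, Finset.inter_eq_right.mpr ht]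
  have e1 := cyclotomic_expand_eq_cyclotomic h13 (n := 13) (by norm_num) ℤ
  have e2 := cyclotomic_expand_eq_cyclotomic h13 (n := 65) (by norm_num) ℤ
  have e3 := cyclotomic_expand_eq_cyclotomic h13 (n := 91) (by norm_num) ℤ
  have e4 := cyclotomic_expand_eq_cyclotomic h13 (n := 455) (by norm_num) ℤ
  rw [h1, divs]
  unfold EP GP
  rw [Finset.prod_insert (by decide), Finset.prod_insert (by decide),
    Finset.prod_insert (by decide), Finset.prod_insert (by decide),
    Finset.prod_insert (by decide), Finset.prod_insert (by decide),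
    Finset.prod_insert (by decide), Finset.prod_insert (by decide),
    Finset.prod_insert (by decide), Finset.prod_insert (by decide),
    Finset.prod_insert (by decide), Finset.prod_singleton,
    ite_eq 1 t L1 cyc1, ite_eq 5 t L5 cyc5, ite_eq 7 t L7 cyc7, ite_eq 13 t L13 cyc13,
    ite_eq 35 t L35 cyc35, ite_eq 65 t L65 cyc65, ite_eq 91 t L91 cyc91,
    ite_eq 455 t L455 cyc455,
    ite_eq_expand 169 13 t L13 cyc13 e1.symm, ite_eq_expand 845 65 t L65 cyc65 e2.symm,
    ite_eq_expand 1183 91 t L91 cyc91 e3.symm, ite_eq_expand 5915 455 t L455 cyc455 e4.symm]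
  simp only [map_mul]
  ring

theorem height_le_B {n : ℕ} (hn : 0 < n) {t : Finset ℕ} (ht : t ⊆ n.divisors) :
    height (∏ d ∈ t, cyclotomic d ℤ) ≤ B n := le_B hn (prod_cyclotomic_dvd hn ht)

theorem B_eq : B (5 * 7 * 13 ^ 2) = 12822 := by
  have hn : 0 < 5 * 7 * 13 ^ 2 := by norm_num
  apply le_antisymm
  · obtain ⟨f, hf, hfB⟩ := exists_eq_B hn
    obtain ⟨t, ht, heq⟩ := exists_height_eq_of_dvd hn hf
    rw [← hfB, heq, prod_eq ht]
    exact (HB_all _ _ _ _ _ _ _ _ _ _ _ _).height_le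
  · have hsub : ({5, 7, 13, 455, 845, 1183} : Finset ℕ) ⊆ (5 * 7 * 13 ^ 2).divisors := by
      rw [divs]; decide +kernel
    have h1 := height_le_B hn hsub
    rw [prod_eq hsub] at h1
    refine le_trans ?_ h1
    have hb : (decide (1 ∈ ({5, 7, 13, 455, 845, 1183} : Finset ℕ)) = false) ∧
        (decide (5 ∈ ({5, 7, 13, 455, 845, 1183} : Finset ℕ)) = true) ∧
        (decide (7 ∈ ({5, 7, 13, 455, 845, 1183} : Finset ℕ)) = true) ∧
        (decide (13 ∈ ({5, 7, 13, 455, 845, 1183} : Finset ℕ)) = true) ∧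
        (decide (35 ∈ ({5, 7, 13, 455, 845, 1183} : Finset ℕ)) = false) ∧
        (decide (65 ∈ ({5, 7, 13, 455, 845, 1183} : Finset ℕ)) = false) ∧
        (decide (91 ∈ ({5, 7, 13, 455, 845, 1183} : Finset ℕ)) = false) ∧
        (decide (455 ∈ ({5, 7, 13, 455, 845, 1183} : Finset ℕ)) = true) ∧
        (decide (169 ∈ ({5, 7, 13, 455, 845, 1183} : Finset ℕ)) = false) ∧
        (decide (845 ∈ ({5, 7, 13, 455, 845, 1183} : Finset ℕ)) = true) ∧
        (decide (1183 ∈ ({5, 7, 13, 455, 845, 1183} : Finset ℕ)) = true) ∧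
        (decide (5915 ∈ ({5, 7, 13, 455, 845, 1183} : Finset ℕ)) = false) := by decide +kernel
    obtain ⟨c1, c2, c3, c4, c5, c6, c7, c8, c9, c10, c11, c12⟩ := hb
    rw [c1, c2, c3, c4, c5, c6, c7, c8, c9, c10, c11, c12]
    have h2 := natAbs_coeff_le_height (EP false true true true false false false true *
      expand ℤ 13 (GP false true true false)) 597
    rw [coeff_max] at h2
    exact h2

/-- There are primes `p < q < r` and `b ≥ 2` with `p ∤ B(p q r^b)`: namely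
`(p, q, r, b) = (5, 7, 13, 2)`, where `B(5 * 7 * 13 ^ 2) = 12822`. -/
theorem result : ∃ p q r b : ℕ, p.Prime ∧ q.Prime ∧ r.Prime ∧ p < q ∧ q < r ∧ 2 ≤ b ∧
    ¬ p ∣ B (p * q * r ^ b) := by
  refine ⟨5, 7, 13, 2, by norm_num, by norm_num, by norm_num, by norm_num, by norm_num, le_rfl, ?_⟩
  rw [B_eq]
  norm_num

end Pool.Agent.Results.MP_68ef1b_nt.NotDvdB
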